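import Pool.Agent.K1H35.SH.Stm

namespace Pool.Agent.K1H99.SH

open Finset Pool.Agent.K1H35.SH

theorem mem_nb {n : ℕ} (G : SimpleGraph (Fin n)) (v x : Fin n) : x ∈ nb G v ↔ G.Adj v x := by
  simp [nb]

theorem mem_reg {n d : ℕ} (G : SimpleGraph (Fin n)) :
    G ∈ reg n d ↔ ∀ v, (nb G v).card = d := by
  simp [reg]

open Classical in
theorem t_R : S_R := by
  intro n d t G u v hn hd hG huv hK ht
  rw [mem_reg] at hG
  set A := nb G u with hA
  set B := nb G v with hB
  set K := A ∩ B with hKd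
  have hK' : K.card = t + 1 := by
    rw [← hK, codeg]
  set L : Finset (Fin n) := univ.filter (fun l => l ∉ A ∧ l ∉ B ∧ l ≠ u ∧ l ≠ v) with hL
  -- size of L
  have hLc : n + t ≤ L.card + 2 * d + 1 := by
    have h1 : (univ : Finset (Fin n)) ⊆ L ∪ ((A ∪ B) ∪ {u, v}) := by
      intro x _
      simp only [hL, mem_union, mem_filter, mem_univ, true_and, mem_insert, mem_singleton]
      tauto
    have h2 := card_le_card h1
    rw [card_univ, Fintype.card_fin] at h2
    have h3 := card_union_le L ((A ∪ B) ∪ {u, v})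
    have h4 := card_union_le (A ∪ B) {u, v}
    have h5 : ({u, v} : Finset (Fin n)).card ≤ 2 := card_le_two
    have h6 := card_union_add_card_inter A B
    have h7 := hG u
    have h8 := hG v
    rw [← hA] at h7
    rw [← hB] at h8
    rw [← hKd] at h6
    omega
  have htd : t + 1 ≤ d := by
    rw [← hK', ← hG u]
    exact card_le_card inter_subset_left
  -- functions
  set dL : Fin n → ℕ := fun x => (L ∩ nb G x).card with hdL
  set S : Finset (Σ _ : Fin n, Fin n × Fin n) :=
    (univ : Finset (Fin n)).sigma (fun x => (L ∩ nb G x) ×ˢ (K \ insert x (nb G x))) with hS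
  have hSc : S.card ≤ (RT G u v).card := by
    refine card_le_card_of_injOn (fun p => ((v, p.2.2, p.2.1, p.1) : Tup n)) ?_ ?_
    · rintro ⟨x, l, k⟩ hp
      simp only [hS, hL, hKd, hA, hB, coe_sigma, Set.mem_sigma_iff, mem_coe, mem_univ, mem_product,
        mem_inter, mem_filter, true_and, mem_sdiff, mem_insert, mem_nb, not_or] at hp
      simp only [RT, coe_filter, mem_univ, true_and, Set.mem_setOf_eq]
      obtain ⟨⟨⟨h1, h2, h3, h4⟩, h5⟩, ⟨h6, h7⟩, h8, h9⟩ := hp
      exact ⟨h6, h7, h1, h2, h3, h4, h5.symm, fun h => h9 h.symm, h8⟩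
    · rintro ⟨x, l, k⟩ _ ⟨x', l', k'⟩ _ h
      simp only [Prod.mk.injEq, true_and] at h
      obtain ⟨rfl, rfl, rfl⟩ := h
      rfl
  have hScard : S.card = ∑ x : Fin n, dL x * (K \ insert x (nb G x)).card := by
    rw [hS, card_sigma]
    refine sum_congr rfl fun x _ => ?_
    rw [card_product]
  have hx : ∀ x : Fin n, (dL x : ℤ) + t - d ≤ ((K \ insert x (nb G x)).card : ℤ) := by
    intro x
    have h1 : K.card ≤ (K \ insert x (nb G x)).card + ((K ∩ nb G x).card + 1) := by
      have : K ⊆ (K \ insert x (nb G x)) ∪ ((K ∩ nb G x) ∪ {x}) := by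
        intro y hy
        simp only [mem_union, mem_sdiff, mem_insert, mem_inter, mem_singleton]
        tauto
      refine (card_le_card this).trans ((card_union_le _ _).trans ?_)
      have := card_union_le (K ∩ nb G x) {x}
      rw [card_singleton] at this
      omega
    have h2 : (L ∩ nb G x).card + (K ∩ nb G x).card ≤ d := by
      rw [← card_union_of_disjoint]
      · rw [← hG x]
        refine card_le_card ?_
        intro y hy
        simp only [mem_union, mem_inter] at hy
        tauto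
      · rw [disjoint_left]
        intro y hy hy'
        simp only [hL, hKd, mem_inter, mem_filter, mem_univ, true_and] at hy hy'
        exact hy.1.1 hy'.1.1
    simp only [hdL]
    omega
  have hsum : ∑ x : Fin n, dL x = d * L.card := by
    have h1 : ∀ x, dL x = ∑ l ∈ L, if G.Adj l x then 1 else 0 := by
      intro x
      simp only [hdL]
      rw [card_eq_sum_ones, sum_ite, sum_const_zero, add_zero]
      refine sum_congr ?_ fun _ _ => rfl
      ext l
      simp only [mem_inter, mem_nb, mem_filter]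
      rw [G.adj_comm]
    simp_rw [h1]
    rw [sum_comm]
    have h2 : ∀ l ∈ L, ∑ x : Fin n, (if G.Adj l x then 1 else 0) = d := by
      intro l _
      rw [← hG l, card_eq_sum_ones, sum_ite, sum_const_zero, add_zero]
      refine sum_congr ?_ fun _ _ => rfl
      ext x
      simp only [mem_nb, mem_filter, mem_univ, true_and]
    rw [sum_congr rfl h2, sum_const, smul_eq_mul, mul_comm]
  have hcs : (∑ x : Fin n, (dL x : ℤ)) ^ 2 ≤ (n : ℤ) * ∑ x : Fin n, (dL x : ℤ) ^ 2 := by
    have := sq_sum_le_card_mul_sum_sq (s := (univ : Finset (Fin n))) (f := fun x => (dL x : ℤ))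
    simpa using this
  have hsumZ : ∑ x : Fin n, (dL x : ℤ) = (d : ℤ) * L.card := by exact_mod_cast hsum
  have hR : ∑ x : Fin n, (dL x : ℤ) ^ 2 - ((d : ℤ) - t) * ((d : ℤ) * L.card) ≤
      ((RT G u v).card : ℤ) := by
    have h1 : ((S.card : ℕ) : ℤ) ≤ ((RT G u v).card : ℤ) := by exact_mod_cast hSc
    refine le_trans ?_ h1
    rw [hScard, ← hsumZ, mul_sum, ← sum_sub_distrib]
    push_cast
    refine sum_le_sum fun x _ => ?_
    have h2 := hx x
    have h3 : (0 : ℤ) ≤ dL x := by positivity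
    nlinarith [mul_le_mul_of_nonneg_left h2 h3]
  rw [hsumZ] at hcs
  generalize hℓ : L.card = ℓ at *
  generalize hRR : (RT G u v).card = R at *
  generalize hQ : ∑ x : Fin n, (dL x : ℤ) ^ 2 = Q at *
  have e1 : (n : ℤ) * R ≥ (d : ℤ) * ℓ * ((d : ℤ) * ℓ - ((d : ℤ) - t) * n) := by
    have : (0 : ℤ) ≤ n := by positivity
    nlinarith [mul_le_mul_of_nonneg_left hR this]
  have hnZ : (2 : ℤ) * d ≤ n := by exact_mod_cast hn
  have hdZ : (64 : ℤ) ≤ d := by exact_mod_cast hd
  have htZ : (7 : ℤ) * d ≤ 8 * t := by exact_mod_cast ht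
  have hlZ : (n : ℤ) + t ≤ ℓ + 2 * d + 1 := by exact_mod_cast hLc
  have htdZ : (t : ℤ) + 1 ≤ d := by exact_mod_cast htd
  have e2 : (4 : ℤ) * ((d : ℤ) * ℓ - ((d : ℤ) - t) * n) ≥ (d : ℤ) * n := by
    have a1 : (d : ℤ) * (n + t - 2 * d - 1) ≤ d * ℓ :=
      mul_le_mul_of_nonneg_left (by linarith) (by linarith)
    have a2 : (7 : ℤ) * d * (n + d) ≤ 8 * t * (n + d) :=
      mul_le_mul_of_nonneg_right htZ (by linarith)
    have a3 : (d : ℤ) * (2 * d) ≤ d * n := mul_le_mul_of_nonneg_left hnZ (by linarith)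
    have a4 : (d : ℤ) * 16 ≤ d * n := mul_le_mul_of_nonneg_left (by linarith) (by linarith)
    nlinarith
  have e3 : (4 : ℤ) * ((n : ℤ) * R) ≥ (d : ℤ) * ℓ * (d * n) := by
    have h0 : (0 : ℤ) ≤ (d : ℤ) * ℓ := by positivity
    nlinarith [mul_le_mul_of_nonneg_left e2 h0]
  have hn0 : (0 : ℤ) < n := by linarith
  have e4 : (4 : ℤ) * R ≥ (d : ℤ) * ℓ * d := by
    have : (n : ℤ) * ((d : ℤ) * ℓ * d) ≤ n * (4 * R) := by nlinarith
    exact le_of_mul_le_mul_left this hn0
  have e5 : (3 : ℤ) * d ≤ 4 * ℓ := by linarith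
  have e6 : (3 : ℤ) * d ^ 3 ≤ 16 * R := by
    have h0 : (0 : ℤ) ≤ (d : ℤ) * d := by positivity
    nlinarith [mul_le_mul_of_nonneg_left e5 h0]
  exact_mod_cast e6

end Pool.Agent.K1H99.SH
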